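import Pool.Agent.Helper11.LE.Goals2
import Pool.Agent.Helper59.RS.PSM
import Pool.Agent.Helper58.RS.EUL
import Pool.Agent.Helper61.RS.ZET
import Pool.Agent.Helper99.RS.QEX

/-!
# Project LE (MP_fc6b1e_nt), packet LE-ANN: primes killed by a space of characters
-/

namespace Pool.Agent.Helper55.LE

open NumberField Polynomial Module IsDedekindDomain Pool.Agent.Helper51.SigLeo
open Pool.Agent.Helper51.RP Pool.Agent.Helper42.RD
open Pool.Agent.Helper38.RSP
open Pool.Agent.Helper38.RS (pz gs hf Gf absN)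
open Pool.Agent.Helper11.LE
open Pool.Agent.Helper99.RS (summable_norm pz_mono)

theorem s_psm : Pool.Agent.Helper38.RS.S_PSM :=
  Pool.Agent.Helper59.RS.s_psm Pool.Agent.Helper58.RS.s_eul
    (Pool.Agent.Helper61.RS.s_zet Pool.Agent.Helper58.RS.s_eul)

/-- The real part of the standard additive character. -/
theorem re_char (p : ℕ) [NeZero p] (x : ZMod p) :
    (ZMod.stdAddChar x : ℂ).re = Real.cos (2 * Real.pi * (x.val : ℝ) / p) := by
  rw [ZMod.stdAddChar_apply, ZMod.toCircle_apply]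
  have h1 : (2 * (Real.pi : ℂ) * Complex.I * (x.val : ℂ) / (p : ℂ)) =
      (((2 * Real.pi * (x.val : ℝ) / p : ℝ) : ℂ)) * Complex.I := by
    push_cast
    ring
  rw [h1, Complex.exp_ofReal_mul_I_re]

/-- Orthogonality, as an inequality. -/
theorem sum_cos (p : ℕ) [NeZero p] (A : Type) [AddCommGroup A] [Fintype A] (φ : A →+ ZMod p) :
    (0 ≤ ∑ c : A, Real.cos (2 * Real.pi * ((φ c).val : ℝ) / p)) ∧
      ((∀ c, φ c = 0) → ∑ c : A, Real.cos (2 * Real.pi * ((φ c).val : ℝ) / p) =
        (Fintype.card A : ℝ)) := by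
  classical
  constructor
  · have h1 : ∑ c : A, Real.cos (2 * Real.pi * ((φ c).val : ℝ) / p) =
        (∑ c : A, (ZMod.stdAddChar.compAddMonoidHom φ : AddChar A ℂ) c).re := by
      rw [Complex.re_sum]
      refine Finset.sum_congr rfl fun c _ => ?_
      rw [AddChar.compAddMonoidHom_apply]
      exact (re_char p (φ c)).symm
    rw [h1, AddChar.sum_eq_ite]
    split_ifs
    · rw [Complex.natCast_re]
      positivity
    · rw [Complex.zero_re]
  · intro h
    have h1 : ∀ c : A, Real.cos (2 * Real.pi * ((φ c).val : ℝ) / p) = 1 := by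
      intro c
      rw [h c, ZMod.val_zero]
      simp
    rw [Finset.sum_congr rfl fun c _ => h1 c]
    simp

theorem l_ann (h1 : L_CHB) : Pool.Agent.Helper11.LE.L_ANN := by
  intro p _ F _ _ _ 𝔪 n η hF hI C₀
  classical
  have hp : p.Prime := Fact.out
  have : NeZero p := ⟨hp.ne_zero⟩
  have hfin : Finite C₀ := inferInstance
  have : Fintype C₀ := Fintype.ofFinite C₀
  obtain ⟨C₁, hC₁⟩ := s_psm F
  -- the homomorphism attached to a prime
  let φ : HeightOneSpectrum (𝓞 F) → (C₀ →+ ZMod p) := fun v =>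
    { toFun := fun c => ∑ i, (c : Fin n → ZMod p) i * η i v.asIdeal
      map_zero' := by simp
      map_add' := by
        intro a b
        simp [add_mul, Finset.sum_add_distrib] }
  have hφ : ∀ v (c : C₀), φ v c = ∑ i, (c : Fin n → ZMod p) i * η i v.asIdeal :=
    fun v c => rfl
  -- the bound for one character
  have hB : ∀ c : C₀, ∃ C : ℝ, c ≠ 0 → ∀ s : ℝ, 1 < s → s ≤ 2 →
      ∑' v : {v : HeightOneSpectrum (𝓞 F) // v.asIdeal ⊔ 𝔪 = ⊤},
        Real.cos (2 * Real.pi * ((φ v.1 c).val : ℝ) / p) *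
          (Ideal.absNorm v.1.asIdeal : ℝ) ^ (-s) ≤ C := by
    intro c
    by_cases hc : c = 0
    · exact ⟨0, fun h => absurd hc h⟩
    · have hc' : (c : Fin n → ZMod p) ≠ 0 := fun h => hc (Subtype.ext h)
      have hψ : IsPsi p 𝔪 (fun I => ∑ i, (c : Fin n → ZMod p) i * η i I) := by
        refine ⟨hF.ne, ?_, ?_, ?_⟩
        · intro I J hI1 hJ1 hI2 hJ2
          change ∑ i, (c : Fin n → ZMod p) i * η i (I * J) =
            ∑ i, (c : Fin n → ZMod p) i * η i I + ∑ i, (c : Fin n → ZMod p) i * η i J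
          rw [← Finset.sum_add_distrib]
          refine Finset.sum_congr rfl fun i _ => ?_
          rw [hF.mul i I J hI1 hJ1 hI2 hJ2, mul_add]
        · intro α hα hα1
          change ∑ i, (c : Fin n → ZMod p) i * η i (Ideal.span {α}) = 0
          refine Finset.sum_eq_zero fun i _ => ?_
          rw [hF.ray i α hα hα1, mul_zero]
        · exact hI _ hc'
      obtain ⟨C, hC⟩ := h1 p F 𝔪 _ hψ
      exact ⟨C, fun _ => hC⟩
  choose B hB' using hB
  have hcard : (0 : ℝ) < (Nat.card C₀ : ℝ) := by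
    exact_mod_cast Nat.card_pos
  refine ⟨(1 / (Nat.card C₀ : ℝ)) * (C₁ + ∑ c ∈ Finset.univ.erase (0 : C₀), B c), ?_⟩
  intro s hs hs2
  set S : Set (HeightOneSpectrum (𝓞 F)) := {v : HeightOneSpectrum (𝓞 F) | v.asIdeal ⊔ 𝔪 = ⊤ ∧
      ∀ c ∈ C₀, ∑ i, c i * η i v.asIdeal = 0} with hS
  set V : Set (HeightOneSpectrum (𝓞 F)) := {v : HeightOneSpectrum (𝓞 F) | v.asIdeal ⊔ 𝔪 = ⊤}
    with hV
  set f : HeightOneSpectrum (𝓞 F) → ℝ := fun v => (Ideal.absNorm v.asIdeal : ℝ) ^ (-s) with hf
  have hf0 : ∀ v, 0 ≤ f v := fun v => by positivity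
  have hfs : Summable f := summable_norm s hs
  set w : C₀ → HeightOneSpectrum (𝓞 F) → ℝ := fun c v =>
    Real.cos (2 * Real.pi * ((φ v c).val : ℝ) / p) with hw
  have hsV : ∀ c : C₀, Summable (fun v : V => w c v * f v) := by
    intro c
    refine Summable.of_norm_bounded (hfs.subtype V) fun v => ?_
    rw [Real.norm_eq_abs, abs_mul, abs_of_nonneg (hf0 _)]
    exact mul_le_of_le_one_left (hf0 _) (Real.abs_cos_le_one _)
  have hmain : (Nat.card C₀ : ℝ) * pz S s ≤ ∑ c : C₀, ∑' v : V, w c v * f v := by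
    rw [← Summable.tsum_finsetSum (fun c _ => hsV c)]
    have e1 : pz S s = ∑' v : V, S.indicator f v := by
      unfold pz
      rw [tsum_subtype S f, tsum_subtype V (S.indicator f)]
      refine tsum_congr fun v => ?_
      rw [Set.indicator_indicator]
      congr 1
      ext u
      rw [Set.mem_inter_iff]
      exact ⟨fun h => ⟨h.1, h⟩, fun h => h.2⟩
    rw [e1, ← tsum_mul_left]
    refine Summable.tsum_le_tsum (fun v => ?_)
      (((hfs.indicator S).subtype V).mul_left _) (summable_sum fun c _ => hsV c)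
    rw [← Finset.sum_mul]
    obtain ⟨k1, k2⟩ := sum_cos p C₀ (φ v)
    by_cases hv : (v : HeightOneSpectrum (𝓞 F)) ∈ S
    · rw [Set.indicator_of_mem hv]
      have k3 := k2 fun c => hv.2 c.1 c.2
      have k4 : ∑ c : C₀, w c v = (Fintype.card C₀ : ℝ) := k3
      rw [k4, Nat.card_eq_fintype_card]
    · rw [Set.indicator_of_notMem hv, mul_zero]
      exact mul_nonneg k1 (hf0 _)
  have hzero : ∑' v : V, w 0 v * f v ≤ Real.log (1 / (s - 1)) + C₁ := by
    have e1 : ∀ v : V, w 0 v * f v = f v := by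
      intro v
      have e2 : w 0 v = 1 := by
        change Real.cos (2 * Real.pi * ((φ v 0).val : ℝ) / p) = 1
        rw [map_zero, ZMod.val_zero]
        simp
      rw [e2, one_mul]
    rw [tsum_congr e1]
    have e3 : ∑' v : V, f v = pz V s := rfl
    rw [e3]
    have e4 := pz_mono (Set.subset_univ V) s hs
    have e5 := (abs_le.1 (hC₁ s hs hs2)).2
    linarith
  have hsplit : ∑ c : C₀, ∑' v : V, w c v * f v =
      (∑ c ∈ Finset.univ.erase (0 : C₀), ∑' v : V, w c v * f v) + ∑' v : V, w 0 v * f v :=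
    (Finset.sum_erase_add _ _ (Finset.mem_univ _)).symm
  have hrest : ∑ c ∈ Finset.univ.erase (0 : C₀), ∑' v : V, w c v * f v ≤
      ∑ c ∈ Finset.univ.erase (0 : C₀), B c := by
    refine Finset.sum_le_sum fun c hc => ?_
    exact hB' c (Finset.ne_of_mem_erase hc) s hs hs2
  have htot : (Nat.card C₀ : ℝ) * pz S s ≤ Real.log (1 / (s - 1)) +
      (C₁ + ∑ c ∈ Finset.univ.erase (0 : C₀), B c) := by
    linarith
  calc pz S s = (1 / (Nat.card C₀ : ℝ)) * ((Nat.card C₀ : ℝ) * pz S s) := by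
        rw [← mul_assoc, one_div_mul_cancel hcard.ne', one_mul]
    _ ≤ (1 / (Nat.card C₀ : ℝ)) * (Real.log (1 / (s - 1)) +
      (C₁ + ∑ c ∈ Finset.univ.erase (0 : C₀), B c)) :=
        mul_le_mul_of_nonneg_left htot (by positivity)
    _ = _ := by ring

end Pool.Agent.Helper55.LE
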